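import Pool.Agent.PRT.StmtsA
import Pool.Agent.PRT.Kit

/-!
# PRT, row LOR (MP_b2962a_an): the line meets its image
-/

set_option autoImplicit false

namespace Pool.Agent.PRT.H5

open Set

section topology

variable {α : Type*} [TopologicalSpace α] [LocallyConnectedSpace α]

/-- a point of the closure of a component of an open set which is in the open set -/
theorem comp_closure {X : Set α} (hX : IsClosed X) (u z : α)
    (hz : z ∈ closure (connectedComponentIn Xᶜ u)) (hzX : z ∉ X) :
    z ∈ connectedComponentIn Xᶜ u := by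
  have ho : IsOpen (connectedComponentIn Xᶜ z) := hX.isOpen_compl.connectedComponentIn
  obtain ⟨y, hy1, hy2⟩ := mem_closure_iff.1 hz _ ho (mem_connectedComponentIn hzX)
  rw [connectedComponentIn_eq hy2, ← connectedComponentIn_eq hy1]
  exact mem_connectedComponentIn hzX

theorem clop [PreconnectedSpace α] {X Y : Set α} (hX : IsClosed X) (hY : IsClosed Y)
    (hXY : Disjoint X Y) (u : α) (huX : u ∉ X)
    (h : connectedComponentIn Xᶜ u = connectedComponentIn Yᶜ u) :
    connectedComponentIn Xᶜ u = univ := by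
  have hcl : IsClopen (connectedComponentIn Xᶜ u) := by
    constructor
    · rw [← closure_subset_iff_isClosed]
      intro z hz
      by_cases hzX : z ∈ X
      · have hzY : z ∉ Y := Set.disjoint_left.1 hXY hzX
        rw [h] at hz ⊢
        exact comp_closure hY u z hz hzY
      · exact comp_closure hX u z hz hzX
    · exact hX.isOpen_compl.connectedComponentIn
  exact hcl.eq_univ ⟨u, mem_connectedComponentIn huX⟩

theorem comp_sub {X Y : Set α} (u : α) (huY : u ∉ Y)
    (h : ∀ x ∈ X, x ∉ connectedComponentIn Yᶜ u) :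
    connectedComponentIn Yᶜ u ⊆ connectedComponentIn Xᶜ u :=
  isPreconnected_connectedComponentIn.subset_connectedComponentIn (mem_connectedComponentIn huY)
    (fun x hx hxX => h x hxX hx)

theorem comp_all {X Y : Set α} (hX : IsPreconnected X) (hXY : Disjoint X Y) (u : α)
    (h : ∃ x ∈ X, x ∈ connectedComponentIn Yᶜ u) : X ⊆ connectedComponentIn Yᶜ u := by
  obtain ⟨x, hx, hxu⟩ := h
  rw [connectedComponentIn_eq hxu]
  exact hX.subset_connectedComponentIn hx (fun y hy hyY => Set.disjoint_left.1 hXY hy hyY)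

/-- two components for the same point are equal or disjoint -/
theorem comp_dis {Y : Set α} (u d z : α) (hd : d ∉ connectedComponentIn Yᶜ u) (hdY : d ∉ Y)
    (h1 : z ∈ connectedComponentIn Yᶜ u) : z ∉ connectedComponentIn Yᶜ d := by
  intro h2
  apply hd
  rw [connectedComponentIn_eq h1, ← connectedComponentIn_eq h2]
  exact mem_connectedComponentIn hdY

theorem two [PreconnectedSpace α] {X Y : Set α} (hX : IsClosed X) (hY : IsClosed Y)
    (hXc : IsPreconnected X) (hYc : IsPreconnected Y) (hXY : Disjoint X Y) (u d : α)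
    (huX : u ∉ X) (huY : u ∉ Y) (hdX : d ∉ X) (hdY : d ∉ Y)
    (hd1 : d ∉ connectedComponentIn Xᶜ u) (hd2 : d ∉ connectedComponentIn Yᶜ u) :
    connectedComponentIn Xᶜ u ⊂ connectedComponentIn Yᶜ u ∨
      connectedComponentIn Yᶜ u ⊂ connectedComponentIn Xᶜ u := by
  by_cases h1 : ∃ x ∈ X, x ∈ connectedComponentIn Yᶜ u
  · by_cases h2 : ∃ y ∈ Y, y ∈ connectedComponentIn Xᶜ u
    · exfalso
      have h3 := comp_all hXc hXY u h1
      have h4 := comp_all hYc hXY.symm u h2
      have h5 : connectedComponentIn Yᶜ d ⊆ connectedComponentIn Xᶜ d :=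
        comp_sub d hdY (fun x hx => comp_dis u d x hd2 hdY (h3 hx))
      have h6 : connectedComponentIn Xᶜ d ⊆ connectedComponentIn Yᶜ d :=
        comp_sub d hdX (fun y hy => comp_dis u d y hd1 hdX (h4 hy))
      have h7 := clop hX hY hXY d hdX (Subset.antisymm h6 h5)
      have h8 : u ∈ connectedComponentIn Xᶜ d := by
        rw [h7]
        exact mem_univ u
      apply hd1
      rw [← connectedComponentIn_eq h8]
      exact mem_connectedComponentIn hdX
    · left
      push Not at h2
      refine ⟨comp_sub u huX h2, ?_⟩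
      intro hc
      obtain ⟨x, hx, hxu⟩ := h1
      exact connectedComponentIn_subset _ _ (hc hxu) hx
  · push Not at h1
    have h3 : connectedComponentIn Yᶜ u ⊆ connectedComponentIn Xᶜ u := comp_sub u huY h1
    by_cases h2 : ∃ y ∈ Y, y ∈ connectedComponentIn Xᶜ u
    · right
      refine ⟨h3, ?_⟩
      intro hc
      obtain ⟨y, hy, hyu⟩ := h2
      exact connectedComponentIn_subset _ _ (hc hyu) hy
    · exfalso
      push Not at h2
      have h4 := clop hX hY hXY u huX (Subset.antisymm (comp_sub u huX h2) h3)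
      apply hd1
      rw [h4]
      exact mem_univ d

end topology

theorem lor (hLBD : LbdStmt) (hLSP : LspStmt) : LorStmt := by
  intro G w C L i hL
  by_contra hcon
  push Not at hcon
  obtain ⟨-, ⟨H, hH⟩, -, hcl⟩ := hLBD G w C L i hL
  have hsp := hLSP G w C L i hL H hH
  have hH0 : 0 < H := lt_of_le_of_lt (abs_nonneg _) (hH 0 0)
  have hw := hL.hm.w0
  -- the points u and d
  have hD : 0 < w.1 ^ 2 + w.2 ^ 2 := by
    have h0 : w.1 ≠ 0 ∨ w.2 ≠ 0 := by
      by_contra hc
      push Not at hc
      exact hw (Prod.ext hc.1 hc.2)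
    rcases h0 with h | h
    · have := pow_pos (abs_pos.2 h) 2
      rw [sq_abs] at this
      positivity
    · have := pow_pos (abs_pos.2 h) 2
      rw [sq_abs] at this
      positivity
  have hC0 : 0 ≤ C := (norm_nonneg _).trans (hL.hm.dev 0 0)
  obtain ⟨K, hK⟩ : ∃ K, K = 2 * ‖w‖ * C := ⟨_, rfl⟩
  have hK0 : 0 ≤ K := by rw [hK]; positivity
  have hpt : ∀ r : ℝ, ∃ u : E, cr w u = r := by
    intro r
    refine ⟨(-(r / (w.1 ^ 2 + w.2 ^ 2) * w.2), r / (w.1 ^ 2 + w.2 ^ 2) * w.1), ?_⟩
    unfold cr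
    field_simp
    ring
  obtain ⟨u, hu⟩ := hpt (H + K)
  obtain ⟨d, hd⟩ := hpt (-H)
  obtain ⟨X, hX⟩ : ∃ X : ℤ → Set E, X = fun n => range fun t => (G ^ n) (L t) := ⟨_, rfl⟩
  have hXn : ∀ n, X n = range fun t => (G ^ n) (L t) := fun n => by rw [hX]
  have hXcr : ∀ n, ∀ z ∈ X n, |cr w z| < H := by
    intro n z hz
    rw [hXn] at hz
    obtain ⟨t, rfl⟩ := hz
    exact hH n t
  have huX : ∀ n, u ∉ X n := by
    intro n h
    have h1 := hXcr n u h
    rw [hu, abs_lt] at h1
    linarith [h1.2]
  have hdX : ∀ n, d ∉ X n := by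
    intro n h
    have h1 := hXcr n d h
    rw [hd, abs_lt] at h1
    linarith [h1.1]
  obtain ⟨P, hP⟩ : ∃ P : Set E, P = {z | H ≤ cr w z} := ⟨_, rfl⟩
  have hPc : IsPreconnected P := by
    apply Convex.isPreconnected
    rw [hP]
    intro x hx y hy a b ha hb hab
    rw [mem_setOf_eq] at hx hy ⊢
    rw [cr_add_right, cr_smul_right, cr_smul_right]
    have h1 : H = a * H + b * H := by rw [← add_mul, hab, one_mul]
    rw [h1]
    exact add_le_add (mul_le_mul_of_nonneg_left hx ha) (mul_le_mul_of_nonneg_left hy hb)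
  have hPX : ∀ n, P ⊆ (X n)ᶜ := by
    intro n z hz hzX
    have h1 := hXcr n z hzX
    rw [hP, mem_setOf_eq] at hz
    rw [abs_lt] at h1
    linarith [h1.2]
  have huP : u ∈ P := by
    rw [hP, mem_setOf_eq, hu]
    linarith
  have hGuP : G u ∈ P := by
    rw [hP, mem_setOf_eq]
    have h1 := hL.hm.dev 1 u
    have h2 : G u = u + (w + ((G ^ (1 : ℤ)) u - u - ((1 : ℤ) : ℝ) • w)) := by
      rw [zpow_one, Int.cast_one, one_smul]
      abel
    rw [h2, cr_add_right, cr_add_right, cr_self, hu]
    have h3 := abs_cr_le w ((G ^ (1 : ℤ)) u - u - ((1 : ℤ) : ℝ) • w)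
    have h4 : 2 * ‖w‖ * ‖(G ^ (1 : ℤ)) u - u - ((1 : ℤ) : ℝ) • w‖ ≤ K := by
      rw [hK]
      exact mul_le_mul_of_nonneg_left h1 (by positivity)
    have h5 := (abs_le.1 (h3.trans h4)).1
    linarith
  obtain ⟨U, hU⟩ : ∃ U : ℤ → Set E, U = fun n => connectedComponentIn (X n)ᶜ u := ⟨_, rfl⟩
  have hUn : ∀ n, U n = connectedComponentIn (X n)ᶜ u := fun n => by rw [hU]
  have hXG : ∀ n : ℤ, G '' (X n)ᶜ = (X (n + 1))ᶜ := by
    intro n
    rw [Set.image_compl_eq G.bijective]
    congr 1
    rw [hXn, hXn, ← Set.range_comp]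
    congr 1
    funext t
    rw [add_comm, zpow_one_add]
    rfl
  have hUG : ∀ n : ℤ, G '' (U n) = U (n + 1) := by
    intro n
    rw [hUn, hUn, G.image_connectedComponentIn (huX n), hXG]
    exact (connectedComponentIn_eq
      (hPc.subset_connectedComponentIn huP (hPX (n + 1)) hGuP)).symm
  have hXp : ∀ n, IsPreconnected (X n) := by
    intro n
    rw [hXn]
    exact isPreconnected_range ((G ^ n).continuous.comp hL.cont)
  have hXcl : ∀ n, IsClosed (X n) := by
    intro n
    rw [hXn]
    exact hcl n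
  have hdis : Disjoint (X 0) (X 1) := by
    rw [Set.disjoint_left]
    intro z h0 h1
    rw [hXn] at h0 h1
    obtain ⟨s, hs⟩ := h0
    obtain ⟨t, ht⟩ := h1
    apply hcon s t
    have hs' : L s = z := hs
    have ht' : G (L t) = z := by
      rw [← ht]
      show G (L t) = (G ^ (1 : ℤ)) (L t)
      rw [zpow_one]
    rw [hs', ht']
  have hHK : H ≤ cr w u := by rw [hu]; linarith
  have hdn : ∀ n, d ∉ connectedComponentIn (X n)ᶜ u := by
    intro n
    rw [hXn]
    exact hsp n d u hd.le hHK
  have hXi : X (i : ℤ) = X 0 := by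
    rw [hXn, hXn]
    have h1 : (fun t => (G ^ ((i : ℕ) : ℤ)) (L t)) = fun t => (G ^ (0 : ℤ)) (L (t + 1)) := by
      funext t
      rw [zpow_natCast, ← hL.step]
      rfl
    rw [h1]
    exact (Equiv.addRight (1 : ℝ)).surjective.range_comp (fun t => (G ^ (0 : ℤ)) (L t))
  have hUi : U (i : ℤ) = U 0 := by
    rw [hUn, hUn, hXi]
  have hmono : StrictMono (fun s : Set E => G '' s) := G.injective.image_strictMono
  have hi0 : 0 < i := lt_of_lt_of_le (by norm_num) hL.i2
  rcases two (hXcl 0) (hXcl 1) (hXp 0) (hXp 1) hdis u d (huX 0) (huX 1) (hdX 0) (hdX 1)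
    (hdn 0) (hdn 1) with h | h
  · have h1 : ∀ n : ℕ, U (n : ℤ) < U ((n + 1 : ℕ) : ℤ) := by
      intro n
      induction n with
      | zero =>
        rw [← hUn, ← hUn] at h
        exact h
      | succ n ih =>
        have h2 := hmono ih
        dsimp only at h2
        rw [hUG, hUG] at h2
        push_cast at h2 ⊢
        exact h2
    have h2 : StrictMono (fun n : ℕ => U (n : ℤ)) := strictMono_nat_of_lt_succ h1
    have h3 := h2 hi0
    dsimp only at h3
    rw [hUi] at h3
    exact lt_irrefl _ h3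
  · have h1 : ∀ n : ℕ, U ((n + 1 : ℕ) : ℤ) < U (n : ℤ) := by
      intro n
      induction n with
      | zero =>
        rw [← hUn, ← hUn] at h
        exact h
      | succ n ih =>
        have h2 := hmono ih
        dsimp only at h2
        rw [hUG, hUG] at h2
        push_cast at h2 ⊢
        exact h2
    have h2 : StrictAnti (fun n : ℕ => U (n : ℤ)) := strictAnti_nat_of_succ_lt h1
    have h3 := h2 hi0
    dsimp only at h3
    rw [hUi] at h3
    exact lt_irrefl _ h3

end Pool.Agent.PRT.H5
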