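import Pool.Agent.PRT.StmtsC

/-!
# PRT, row PLG (MP_b2962a_an): Liouville rotation vectors and polynomial growth
-/

set_option autoImplicit false

namespace Pool.Agent.PRT.H5

open Set
open scoped ContDiff

theorem plg : PlgStmt := by
  intro F w A s hA hgr hL
  unfold HypA
  intro N L0
  obtain ⟨M, hM⟩ : ∃ M, M = max L0 1 := ⟨_, rfl⟩
  have hM0 : L0 ≤ M := by rw [hM]; exact le_max_left _ _
  have hM1 : 1 ≤ M := by rw [hM]; exact le_max_right _ _
  obtain ⟨j, hj⟩ := pow_unbounded_of_one_lt ((M * A * 2 ^ s) ^ N) (one_lt_two (α := ℝ))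
  obtain ⟨q, a, b, hq, h0, h1⟩ := hL (j + (s + 1) * N)
  have hq2 : (2 : ℝ) ≤ q := by exact_mod_cast hq
  have hpq : (1 : ℝ) ≤ ((q : ℝ) + 1) ^ s := one_le_pow₀ (by linarith)
  have hMA : 1 ≤ M * A := one_le_mul_of_one_le_of_one_le hM1 hA
  have hMAp : 1 ≤ M * A * ((q : ℝ) + 1) ^ s := one_le_mul_of_one_le_of_one_le hMA hpq
  have hbase : M * A * ((q : ℝ) + 1) ^ s ≤ M * A * ((q : ℝ) + 1) ^ s * q :=
    le_mul_of_one_le_right (by linarith) (by linarith)
  refine ⟨q, a, b, M * A * ((q : ℝ) + 1) ^ s * q, by omega, ?_, ?_, ?_, h0, ?_⟩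
  · calc L0 ≤ M := hM0
      _ ≤ M * A := le_mul_of_one_le_right (by linarith) hA
      _ ≤ M * A * ((q : ℝ) + 1) ^ s := le_mul_of_one_le_right (by linarith) hpq
      _ ≤ M * A * ((q : ℝ) + 1) ^ s * q := hbase
  · exact le_mul_of_one_le_left (by linarith) hMAp
  · intro m hm z
    have hm' : (m : ℝ) ≤ q := by exact_mod_cast hm
    calc ‖fderiv ℝ (F^[m]) z‖ ≤ A * ((m : ℝ) + 1) ^ s := hgr m z
      _ ≤ A * ((q : ℝ) + 1) ^ s := by
          refine mul_le_mul_of_nonneg_left ?_ (by linarith)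
          exact pow_le_pow_left₀ (by positivity) (by linarith) s
      _ ≤ M * (A * ((q : ℝ) + 1) ^ s) := le_mul_of_one_le_left (by positivity) hM1
      _ = M * A * ((q : ℝ) + 1) ^ s := by ring
      _ ≤ M * A * ((q : ℝ) + 1) ^ s * q := hbase
  · have hLle : M * A * ((q : ℝ) + 1) ^ s * q ≤ M * A * 2 ^ s * (q : ℝ) ^ (s + 1) := by
      have h2 : ((q : ℝ) + 1) ^ s ≤ (2 * q) ^ s :=
        pow_le_pow_left₀ (by linarith) (by linarith) s
      calc M * A * ((q : ℝ) + 1) ^ s * q ≤ M * A * (2 * (q : ℝ)) ^ s * q := by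
            refine mul_le_mul_of_nonneg_right ?_ (by linarith)
            exact mul_le_mul_of_nonneg_left h2 (by linarith)
        _ = M * A * 2 ^ s * (q : ℝ) ^ (s + 1) := by
            rw [mul_pow, pow_succ]
            ring
    have hL0 : 0 ≤ M * A * ((q : ℝ) + 1) ^ s * q := by linarith [hMAp, hbase]
    have hpw : (M * A * ((q : ℝ) + 1) ^ s * q) ^ N ≤ (q : ℝ) ^ (j + (s + 1) * N) := by
      calc (M * A * ((q : ℝ) + 1) ^ s * q) ^ N
          ≤ (M * A * 2 ^ s * (q : ℝ) ^ (s + 1)) ^ N := pow_le_pow_left₀ hL0 hLle N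
        _ = (M * A * 2 ^ s) ^ N * (q : ℝ) ^ ((s + 1) * N) := by rw [mul_pow, ← pow_mul]
        _ ≤ 2 ^ j * (q : ℝ) ^ ((s + 1) * N) :=
            mul_le_mul_of_nonneg_right hj.le (by positivity)
        _ ≤ (q : ℝ) ^ j * (q : ℝ) ^ ((s + 1) * N) := by
            refine mul_le_mul_of_nonneg_right ?_ (by positivity)
            exact pow_le_pow_left₀ (by norm_num) hq2 j
        _ = (q : ℝ) ^ (j + (s + 1) * N) := by rw [← pow_add]
    exact (mul_le_mul_of_nonneg_left hpw h0.le).trans h1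

end Pool.Agent.PRT.H5
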